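import Pool.Agent.Run7.h400.GK.StmK

/-!
# Project GK, piece LOC: valuation argument, evaluation at `T = θ`
-/

set_option autoImplicit false

namespace Run7.h760.GK

open Polynomial Finset Run7.h400.GK

section cong

variable {K : Type} [Field K] {G : Type} [LinearOrderedCommGroupWithZero G]

/-- congruence modulo `t` in the valuation ring -/
structure Cg (v : Valuation K G) (t x y : K) : Prop where
  l : v x ≤ 1
  r : v y ≤ 1
  d : v (x - y) ≤ v t

variable {v : Valuation K G} {t : K}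

theorem Cg.refl {x : K} (h : v x ≤ 1) : Cg v t x x := ⟨h, h, by simp⟩

theorem Cg.symm {x y : K} (h : Cg v t x y) : Cg v t y x :=
  ⟨h.r, h.l, by rw [Valuation.map_sub_swap]; exact h.d⟩

theorem Cg.trans {x y z : K} (h : Cg v t x y) (h' : Cg v t y z) : Cg v t x z :=
  ⟨h.l, h'.r, by
    have : x - z = (x - y) + (y - z) := by ring
    rw [this]
    exact v.map_add_le h.d h'.d⟩

theorem Cg.add {x y x' y' : K} (h : Cg v t x y) (h' : Cg v t x' y') : Cg v t (x + x') (y + y') :=
  ⟨v.map_add_le h.l h'.l, v.map_add_le h.r h'.r, by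
    have : x + x' - (y + y') = (x - y) + (x' - y') := by ring
    rw [this]
    exact v.map_add_le h.d h'.d⟩

theorem Cg.neg {x y : K} (h : Cg v t x y) : Cg v t (-x) (-y) :=
  ⟨by rw [Valuation.map_neg]; exact h.l, by rw [Valuation.map_neg]; exact h.r, by
    have : -x - -y = -(x - y) := by ring
    rw [this, Valuation.map_neg]
    exact h.d⟩

theorem Cg.mul {x y x' y' : K} (h : Cg v t x y) (h' : Cg v t x' y') : Cg v t (x * x') (y * y') :=
  ⟨by rw [map_mul]; exact mul_le_one' h.l h'.l, by rw [map_mul]; exact mul_le_one' h.r h'.r, by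
    have : x * x' - y * y' = x * (x' - y') + (x - y) * y' := by ring
    rw [this]
    refine v.map_add_le ?_ ?_
    · rw [map_mul]
      calc v x * v (x' - y') ≤ 1 * v t := mul_le_mul' h.l h'.d
        _ = v t := one_mul _
    · rw [map_mul]
      calc v (x - y) * v y' ≤ v t * 1 := mul_le_mul' h.d h'.r
        _ = v t := mul_one _⟩

theorem Cg.pow {x y : K} (h : Cg v t x y) (n : ℕ) : Cg v t (x ^ n) (y ^ n) := by
  induction n with
  | zero => simpa using Cg.refl (v := v) (t := t) (x := 1) (by simp)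
  | succ n ih => rw [pow_succ, pow_succ]; exact ih.mul h

theorem Cg.sum {ι : Type} {s : Finset ι} {f g : ι → K} (h : ∀ i ∈ s, Cg v t (f i) (g i)) :
    Cg v t (∑ i ∈ s, f i) (∑ i ∈ s, g i) := by
  classical
  induction s using Finset.induction_on with
  | empty => simpa using Cg.refl (v := v) (t := t) (x := 0) (by simp)
  | insert a s ha ih =>
    rw [sum_insert ha, sum_insert ha]
    exact (h a (mem_insert_self _ _)).add (ih fun i hi => h i (mem_insert_of_mem hi))

theorem Cg.prod {ι : Type} {s : Finset ι} {f g : ι → K} (h : ∀ i ∈ s, Cg v t (f i) (g i)) :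
    Cg v t (∏ i ∈ s, f i) (∏ i ∈ s, g i) := by
  classical
  induction s using Finset.induction_on with
  | empty => simpa using Cg.refl (v := v) (t := t) (x := 1) (by simp)
  | insert a s ha ih =>
    rw [prod_insert ha, prod_insert ha]
    exact (h a (mem_insert_self _ _)).mul (ih fun i hi => h i (mem_insert_of_mem hi))

theorem Cg.inv {x y : K} (h : Cg v t x y) (hx : v x = 1) (hy : v y = 1) :
    Cg v t x⁻¹ y⁻¹ := by
  refine ⟨by rw [map_inv₀, hx, inv_one], by rw [map_inv₀, hy, inv_one], ?_⟩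
  have hx0 : x ≠ 0 := by rintro rfl; simp at hx
  have hy0 : y ≠ 0 := by rintro rfl; simp at hy
  have : x⁻¹ - y⁻¹ = (y - x) * (x⁻¹ * y⁻¹) := by field_simp
  rw [this, map_mul, map_mul, map_inv₀, map_inv₀, hx, hy, inv_one, one_mul, mul_one,
    Valuation.map_sub_swap]
  exact h.d

/-- a multiple of `t` is congruent to `0` -/
theorem Cg.zero {x : K} (ht : v t ≤ 1) (h : v x ≤ v t) : Cg v t x 0 :=
  ⟨h.trans ht, by simp, by simpa using h⟩

end cong

section fld

variable {Fq E : Type} [Field Fq] [Fintype Fq] [Field E] [Fintype E] [Algebra Fq E]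
  {w : Fq[X]} {θ : E} {q d : ℕ}

theorem two_le_q (D : Dat Fq E w θ q d) : 2 ≤ q := by
  rw [D.hq]
  exact Fintype.one_lt_card

theorem theta_d (D : Dat Fq E w θ q d) : θ ^ (q ^ d) = θ := by
  rw [← D.hd]
  exact FiniteField.pow_card θ

theorem theta_ne (D : Dat Fq E w θ q d) {i : ℕ} (hi : 0 < i) (hid : i < d) : θ ^ (q ^ i) ≠ θ := by
  intro h
  have hq := two_le_q D
  have : FiniteDimensional Fq E := Module.Finite.of_finite
  have hmin : minpoly Fq θ = w := (minpoly.eq_of_irreducible_of_monic D.irr D.root D.monic).symm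
  have hfr : Module.finrank Fq E = d := by
    have h1 : Fintype.card E = Fintype.card Fq ^ Module.finrank Fq E :=
      Module.card_eq_pow_finrank
    rw [D.hd, ← D.hq] at h1
    exact (Nat.pow_right_injective hq h1).symm
  have htop : IntermediateField.adjoin Fq {θ} = ⊤ := by
    rw [Field.primitive_element_iff_minpoly_natDegree_eq, hmin, D.deg, hfr]
  have hall : ∀ x : E, x ^ (q ^ i) = x := by
    intro x
    have hx : x ∈ IntermediateField.adjoin Fq {θ} := by rw [htop]; trivial
    have hx2 : x ∈ Algebra.adjoin Fq {θ} := by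
      rw [← IntermediateField.adjoin_simple_toSubalgebra_of_isAlgebraic
        (Algebra.IsAlgebraic.isAlgebraic θ)]
      exact hx
    obtain ⟨p, hp⟩ := Algebra.adjoin_singleton_eq_range_aeval Fq θ ▸ hx2
    have h2 : ∀ p : Fq[X], (aeval θ p) ^ (q ^ i) = aeval (θ ^ (q ^ i)) p := by
      intro p
      rw [D.hq]
      obtain ⟨r, hr⟩ := CharP.exists Fq
      have := hr
      obtain ⟨n, hp, hn⟩ := FiniteField.card Fq r
      have : Fact r.Prime := ⟨hp⟩
      have : CharP E r := charP_of_injective_algebraMap (algebraMap Fq E).injective r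
      have : ExpChar E r := ExpChar.prime hp
      rw [hn, ← pow_mul]
      have h3 : ∀ y : E, y ^ (r ^ ((n : ℕ) * i)) = iterateFrobenius E r ((n : ℕ) * i) y := by
        intro y
        rw [iterateFrobenius_def]
      rw [h3, h3]
      rw [aeval_def, aeval_def, hom_eval₂]
      congr 1
      ext a
      simp only [RingHom.comp_apply]
      rw [iterateFrobenius_def, ← map_pow]
      congr 1
      rw [pow_mul, ← hn]
      exact FiniteField.pow_card_pow i a
    have h3 := h2 p
    rw [h] at h3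
    have hp' : aeval θ p = x := hp
    rw [hp'] at h3
    exact h3
  have hcard : Fintype.card E ≤ q ^ i := by
    classical
    have hne : (X ^ (q ^ i) - X : E[X]) ≠ 0 := FiniteField.X_pow_card_pow_sub_X_ne_zero E hi.ne' hq
    have h1 : (univ : Finset E).card ≤ (X ^ (q ^ i) - X : E[X]).roots.toFinset.card := by
      apply card_le_card
      intro x _
      rw [Multiset.mem_toFinset, mem_roots hne]
      simp [hall x]
    have h2 := (X ^ (q ^ i) - X : E[X]).roots.toFinset_card_le
    have h3 := (X ^ (q ^ i) - X : E[X]).card_roots' 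
    have h4 : (X ^ (q ^ i) - X : E[X]).natDegree = q ^ i :=
      FiniteField.X_pow_card_pow_sub_X_natDegree_eq E hi.ne' hq
    rw [card_univ] at h1
    omega
  rw [D.hd] at hcard
  have := Nat.pow_lt_pow_right hq hid
  omega

omit [Fintype Fq] in
open Classical in
theorem sum_units {Q k j : ℕ} (hQ : Fintype.card E = Q) (hk : 0 < k) (hk2 : k < Q - 1)
    (hj : j < Q - 1) :
    ∑ a ∈ univ.filter (fun a : E => a ≠ 0), (a⁻¹) ^ k * a ^ j = if j = k then (-1 : E) else 0 := by
  have h1 : ∀ a ∈ univ.filter (fun a : E => a ≠ 0), (a⁻¹) ^ k * a ^ j = a ^ (Q - 1 - k + j) := by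
    intro a ha
    have ha0 : a ≠ 0 := (mem_filter.1 ha).2
    have h2 : a ^ (Q - 1) = 1 := by rw [← hQ]; exact FiniteField.pow_card_sub_one_eq_one a ha0
    have h3 : a ^ (Q - 1 - k) * a ^ k = 1 := by
      rw [← pow_add, ← h2]; congr 1; omega
    rw [pow_add]
    congr 1
    rw [inv_pow]
    exact (eq_inv_of_mul_eq_one_left h3).symm
  rw [sum_congr rfl h1]
  have h2 : ∑ a ∈ univ.filter (fun a : E => a ≠ 0), a ^ (Q - 1 - k + j) =
      ∑ u : Eˣ, ((u : E) ^ (Q - 1 - k + j)) := by
    symm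
    apply Finset.sum_bij (fun (u : Eˣ) _ => (u : E))
    · intro u _
      simp
    · intro u _ v _ h
      exact Units.ext h
    · intro a ha
      exact ⟨Units.mk0 a (mem_filter.1 ha).2, mem_univ _, rfl⟩
    · intro u _
      rfl
  rw [h2, FiniteField.sum_pow_units E (Q - 1 - k + j), hQ]
  by_cases hjk : j = k
  · rw [if_pos hjk, if_pos]
    rw [hjk]
    have : Q - 1 - k + k = Q - 1 := by omega
    rw [this]
  · rw [if_neg hjk, if_neg]
    rintro ⟨c, hc⟩
    have h5 : c = 1 := by
      have : 0 < c := by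
        rcases Nat.eq_zero_or_pos c with h | h
        · rw [h, mul_zero] at hc; omega
        · exact h
      have : c < 2 := by
        by_contra hcc
        have : (Q - 1) * 2 ≤ (Q - 1) * c := Nat.mul_le_mul_left _ (by omega)
        omega
      omega
    rw [h5] at hc
    omega

end fld

section ps

variable {E : Type} [Field E]

theorem ez_zero {q d : ℕ} (hq : 2 ≤ q) (hd : 1 ≤ d) (θ : E) :
    PowerSeries.constantCoeff (ez q d θ) = 1 := by
  unfold ez
  rw [map_sum, Finset.sum_eq_single_of_mem 0 (mem_range.2 (by omega))]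
  · simp [Dm, ← PowerSeries.coeff_zero_eq_constantCoeff_apply]
  · intro m _ hm
    rw [← PowerSeries.coeff_zero_eq_constantCoeff_apply, PowerSeries.coeff_monomial, if_neg]
    have h : q ^ 1 ≤ q ^ m := Nat.pow_le_pow_right (by omega) (by omega)
    rw [pow_one] at h
    omega

theorem ez_coe (q d : ℕ) (θ : E) :
    ((∑ m ∈ range d, monomial (q ^ m - 1) (Dm q θ m)⁻¹ : E[X]) : PowerSeries E) = ez q d θ := by
  unfold ez
  rw [← Polynomial.coeToPowerSeries.ringHom_apply, map_sum]
  simp only [Polynomial.coeToPowerSeries.ringHom_apply, Polynomial.coe_monomial]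

theorem ez_inv {q d : ℕ} (hq : 2 ≤ q) (hd : 1 ≤ d) (θ : E) (N : ℕ) :
    ∃ S : E[X], (∑ m ∈ range d, monomial (q ^ m - 1) (Dm q θ m)⁻¹ : E[X]) *
      PowerSeries.trunc N (ez q d θ)⁻¹ = 1 + X ^ N * S := by
  have h1 : X ^ N ∣ (∑ m ∈ range d, monomial (q ^ m - 1) (Dm q θ m)⁻¹ : E[X]) *
      PowerSeries.trunc N (ez q d θ)⁻¹ - 1 := by
    rw [X_pow_dvd_iff]
    intro i hi
    have h2 : (ez q d θ) * (ez q d θ)⁻¹ = 1 := by
      apply PowerSeries.mul_inv_cancel
      rw [ez_zero hq hd]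
      exact one_ne_zero
    have h3 : PowerSeries.coeff i (ez q d θ * (ez q d θ)⁻¹) =
        ((∑ m ∈ range d, monomial (q ^ m - 1) (Dm q θ m)⁻¹ : E[X]) *
      PowerSeries.trunc N (ez q d θ)⁻¹).coeff i := by
      rw [← Polynomial.coeff_coe, Polynomial.coe_mul, ez_coe, PowerSeries.coeff_mul,
        PowerSeries.coeff_mul]
      apply sum_congr rfl
      intro p hp
      congr 1
      rw [Polynomial.coeff_coe, PowerSeries.coeff_trunc, if_pos]
      have := mem_antidiagonal.1 hp
      omega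
    rw [coeff_sub, ← h3, h2, ← Polynomial.coeff_coe 1, Polynomial.coe_one, sub_self]
  obtain ⟨S, hS⟩ := h1
  exact ⟨S, by rw [← hS]; ring⟩

end ps

section val

variable {E K : Type} [Field E] [Field K] [Algebra E K]

theorem exists_val {T : K} (hT : Transcendental E T) (θ : E) :
    ∃ V : ValuationSubring K, (∀ p : E[X], V.valuation (aeval T p) ≤ 1) ∧
      V.valuation (T - algebraMap E K θ) < 1 := by
  let A : Subring K := (aeval T : E[X] →ₐ[E] K).range.toSubring
  have hmem : ∀ p : E[X], aeval T p ∈ A := fun p => ⟨p, rfl⟩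
  let t : A := ⟨aeval T (X - C θ), hmem _⟩
  have hI : Ideal.span {t} ≠ ⊤ := by
    intro h
    rw [Ideal.span_singleton_eq_top] at h
    obtain ⟨b, hb⟩ := isUnit_iff_exists_inv.1 h
    obtain ⟨p, hp⟩ := b.2
    have h1 : aeval T ((X - C θ) * p - 1) = 0 := by
      rw [map_sub, map_mul, map_one, sub_eq_zero]
      rw [show ((aeval T : E[X] →ₐ[E] K) p) = (b : K) from hp]
      exact congrArg Subtype.val hb
    have h2 := (transcendental_iff.1 hT) _ h1
    have h3 : IsUnit (X - C θ) := IsUnit.of_mul_eq_one p (sub_eq_zero.1 h2)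
    exact not_isUnit_X_sub_C θ h3
  obtain ⟨V, hV1, hV2⟩ := Ideal.image_subset_nonunits_valuationSubring _ hI
  refine ⟨V, fun p => (V.valuation_le_one_iff _).2 (hV1 (hmem p)), ?_⟩
  have h4 : (t : K) ∈ V.nonunits := hV2 ⟨t, Ideal.subset_span rfl, rfl⟩
  have h5 : V.valuation (t : K) < 1 := V.mem_nonunits_iff.1 h4
  have h6 : (t : K) = T - algebraMap E K θ := by
    show aeval T (X - C θ) = _
    simp
  rw [← h6]
  exact h5

variable {G : Type} [LinearOrderedCommGroupWithZero G] {v : Valuation K G} {T : K}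

theorem v_const (h : ∀ p : E[X], v (aeval T p) ≤ 1) {e : E} (he : e ≠ 0) :
    v (algebraMap E K e) = 1 := by
  have h1 := h (C e)
  have h2 := h (C e⁻¹)
  rw [aeval_C] at h1 h2
  apply le_antisymm h1
  have h3 : v (algebraMap E K e) * v (algebraMap E K e⁻¹) = 1 := by
    rw [← map_mul, ← map_mul, mul_inv_cancel₀ he, map_one, map_one]
  calc (1 : G) = v (algebraMap E K e) * v (algebraMap E K e⁻¹) := h3.symm
    _ ≤ v (algebraMap E K e) * 1 := mul_le_mul_right h2 _
    _ = _ := mul_one _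

theorem v_const_le (h : ∀ p : E[X], v (aeval T p) ≤ 1) (e : E) :
    v (algebraMap E K e) ≤ 1 := by
  have h1 := h (C e)
  rwa [aeval_C] at h1

theorem cg_poly (h : ∀ p : E[X], v (aeval T p) ≤ 1) (θ : E) (p : E[X]) :
    Cg v (T - algebraMap E K θ) (aeval T p) (algebraMap E K (p.eval θ)) := by
  refine ⟨h p, v_const_le h _, ?_⟩
  obtain ⟨r, hr⟩ := X_sub_C_dvd_sub_C_eval (a := θ) (p := p)
  have h1 : aeval T p - algebraMap E K (p.eval θ) = (T - algebraMap E K θ) * aeval T r := by
    have := congrArg (aeval T) hr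
    simpa using this
  rw [h1, map_mul]
  calc _ ≤ v (T - algebraMap E K θ) * 1 := mul_le_mul_right (h r) _
    _ = _ := mul_one _

theorem v_one_of_cg {t x y : K} (ht : v t < 1) (h : Cg v t x y) (hy : v y = 1) : v x = 1 := by
  have h1 : v (x - y) < v y := by rw [hy]; exact h.d.trans_lt ht
  have h2 : x = y + (x - y) := by ring
  rw [h2, Valuation.map_add_eq_of_lt_left v h1, hy]

end val

section main

variable {Fq E K : Type} [Field Fq] [Fintype Fq] [Field E] [Fintype E] [Algebra Fq E]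
  [Field K] [Algebra E K] {w : Fq[X]} {θ : E} {q d : ℕ} {T : K} {g : ℕ → K}
  {G : Type} [LinearOrderedCommGroupWithZero G] {v : Valuation K G}

/-- all hypotheses on the valuation and the sequence -/
structure Hy (Fq E K : Type) [Field Fq] [Fintype Fq] [Field E] [Fintype E] [Algebra Fq E]
    [Field K] [Algebra E K] (w : Fq[X]) (θ : E) (q d : ℕ) (T : K) (g : ℕ → K)
    {G : Type} [LinearOrderedCommGroupWithZero G] (v : Valuation K G) : Prop where
  D : Dat Fq E w θ q d
  vp : ∀ p : E[X], v (aeval T p) ≤ 1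
  vt : v (T - algebraMap E K θ) < 1
  t0 : T - algebraMap E K θ ≠ 0
  g0 : ∀ i, g i ≠ 0
  gr : ∀ i, g i ^ q = (algebraMap E K (θ ^ (q ^ (i + 1))) - T) * g (i + 1)
  gd : g d = g 0

theorem cg_th (H : Hy Fq E K w θ q d T g v) (i : ℕ) :
    Cg v (T - algebraMap E K θ) (algebraMap E K (θ ^ (q ^ i)) - T)
      (algebraMap E K (θ ^ (q ^ i) - θ)) := by
  have h := cg_poly H.vp θ (C (θ ^ (q ^ i)) - X)
  simpa only [map_sub, aeval_C, aeval_X, eval_sub, eval_C, eval_X] using h

theorem v_th (H : Hy Fq E K w θ q d T g v) {i : ℕ} (hi : 0 < i) (hid : i < d) :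
    v (algebraMap E K (θ ^ (q ^ i)) - T) = 1 :=
  v_one_of_cg H.vt (cg_th H i) (v_const H.vp (sub_ne_zero.2 (theta_ne H.D hi hid)))

theorem v_g (H : Hy Fq E K w θ q d T g v) {m : ℕ} (hm : m < d) :
    v (g m) = v (g 0) ^ (q ^ m) := by
  induction m with
  | zero => simp
  | succ m ih =>
    have h1 := congrArg v (H.gr m)
    rw [map_mul, v_th H (Nat.succ_pos m) hm, one_mul, map_pow, ih (by omega)] at h1
    rw [← h1, pow_succ, pow_mul]

theorem v_t (H : Hy Fq E K w θ q d T g v) :
    v (T - algebraMap E K θ) = v (g 0) ^ (q ^ d - 1) := by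
  have hd := H.D.hd1
  have hq := two_le_q H.D
  have h1 := congrArg v (H.gr (d - 1))
  have hd1 : d - 1 + 1 = d := by omega
  rw [hd1, theta_d H.D, H.gd, map_pow, v_g H (by omega), map_mul, Valuation.map_sub_swap,
    ← pow_mul, ← pow_succ, hd1] at h1
  have h2 : v (g 0) ≠ 0 := (Valuation.ne_zero_iff v).2 (H.g0 0)
  have hpos : 0 < q ^ d := Nat.pos_of_ne_zero (by positivity)
  have h3 : v (g 0) ^ (q ^ d) = v (g 0) ^ (q ^ d - 1) * v (g 0) := by
    rw [← pow_succ]
    congr 1
    omega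
  rw [h3] at h1
  exact (mul_right_cancel₀ h2 h1).symm

theorem v_g0 (H : Hy Fq E K w θ q d T g v) : v (g 0) < 1 := by
  by_contra h
  have h1 := H.vt
  rw [v_t H] at h1
  exact absurd h1 (not_lt.2 (one_le_pow₀ (not_lt.1 h)))

theorem Dm_succ (H : Hy Fq E K w θ q d T g v) (m : ℕ) :
    Dm q θ (m + 1) = (θ ^ (q ^ (m + 1)) - θ) * Dm q θ m ^ q := by
  unfold Dm
  rw [prod_range_succ', pow_zero, pow_one, mul_comm, ← prod_pow]
  congr 1
  apply prod_congr rfl
  intro j _
  obtain ⟨r, hr⟩ := CharP.exists Fq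
  have := hr
  obtain ⟨n, hp, hn⟩ := FiniteField.card Fq r
  have : Fact r.Prime := ⟨hp⟩
  have : CharP E r := charP_of_injective_algebraMap (algebraMap Fq E).injective r
  rw [H.D.hq, hn, sub_pow_char_pow, pow_succ (r ^ (n : ℕ)) m, pow_succ (r ^ (n : ℕ)) j, pow_mul,
    pow_mul]

theorem Dm_ne (H : Hy Fq E K w θ q d T g v) {m : ℕ} (hm : m < d) : Dm q θ m ≠ 0 := by
  induction m with
  | zero => simp [Dm]
  | succ m ih =>
    rw [Dm_succ H]
    exact mul_ne_zero (sub_ne_zero.2 (theta_ne H.D (Nat.succ_pos m) hm)) (pow_ne_zero _ (ih (by omega)))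

theorem cg_h (H : Hy Fq E K w θ q d T g v) {m : ℕ} (hm : m < d) :
    Cg v (T - algebraMap E K θ) (g m / g 0)
      (algebraMap E K (Dm q θ m)⁻¹ * g 0 ^ (q ^ m - 1)) := by
  have hq := two_le_q H.D
  have hv0 := v_g0 H
  induction m with
  | zero =>
    rw [div_self (H.g0 0)]
    simpa [Dm] using Cg.refl (v := v) (t := T - algebraMap E K θ) (x := 1) (by simp)
  | succ m ih =>
    have h1 := ih (by omega)
    have h2 := H.gr m
    have hth : algebraMap E K (θ ^ (q ^ (m + 1))) - T ≠ 0 := by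
      intro h0
      have := v_th H (Nat.succ_pos m) hm
      rw [h0, map_zero] at this
      exact zero_ne_one this
    have e1 : g (m + 1) / g 0 = (g m / g 0) ^ q * g 0 ^ (q - 1) *
        (algebraMap E K (θ ^ (q ^ (m + 1))) - T)⁻¹ := by
      rw [div_pow, h2]
      have h00 := H.g0 0
      have : g 0 ^ q = g 0 ^ (q - 1) * g 0 := by
        rw [← pow_succ]
        congr 1
        omega
      rw [this]
      field_simp
    have e2 : algebraMap E K (Dm q θ (m + 1))⁻¹ * g 0 ^ (q ^ (m + 1) - 1) =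
        (algebraMap E K (Dm q θ m)⁻¹ * g 0 ^ (q ^ m - 1)) ^ q * g 0 ^ (q - 1) *
          (algebraMap E K (θ ^ (q ^ (m + 1)) - θ))⁻¹ := by
      have hexp : q ^ (m + 1) - 1 = (q ^ m - 1) * q + (q - 1) := by
        have : 1 ≤ q ^ m := Nat.one_le_pow _ _ (by omega)
        rw [pow_succ, Nat.sub_mul]
        have : q ≤ q ^ m * q := Nat.le_mul_of_pos_left q (by omega)
        omega
      rw [Dm_succ H, hexp, pow_add, pow_mul, mul_pow, map_inv₀, map_inv₀, map_mul, map_pow,
        mul_inv, inv_pow]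
      ring
    rw [e1, e2]
    have hne : θ ^ (q ^ (m + 1)) - θ ≠ 0 := sub_ne_zero.2 (theta_ne H.D (Nat.succ_pos m) hm)
    refine ((h1.pow q).mul (Cg.refl ?_)).mul ((cg_th H (m + 1)).inv (v_th H (Nat.succ_pos m) hm)
      (v_const H.vp hne))
    rw [map_pow]
    exact pow_le_one' hv0.le _

theorem cg_g (H : Hy Fq E K w θ q d T g v) {m : ℕ} (hm : m < d) :
    Cg v (T - algebraMap E K θ) (g m)
      (algebraMap E K (Dm q θ m)⁻¹ * g 0 ^ (q ^ m)) := by
  have hq := two_le_q H.D
  have h1 := (cg_h H hm).mul (Cg.refl (v := v) (t := T - algebraMap E K θ) (v_g0 H).le)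
  rw [div_mul_cancel₀ _ (H.g0 0), mul_assoc, ← pow_succ] at h1
  have : q ^ m - 1 + 1 = q ^ m := by
    have : 1 ≤ q ^ m := Nat.one_le_pow _ _ (by omega)
    omega
  rwa [this] at h1


/-- the truncated inverse at `z` -/
noncomputable def BB (q d : ℕ) (θ : E) (K : Type) [Field K] [Algebra E K] (N : ℕ) (z : K) : K :=
  aeval z (PowerSeries.trunc N (ez q d θ)⁻¹)

/-- `ε(z)` -/
noncomputable def EE (q d : ℕ) (θ : E) (K : Type) [Field K] [Algebra E K] (z : K) : K :=
  ∑ m ∈ range d, algebraMap E K (Dm q θ m)⁻¹ * z ^ (q ^ m - 1)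

theorem cg_inv (H : Hy Fq E K w θ q d T g v) {z : K} (hz : v z = v (g 0)) :
    v (EE q d θ K z) = 1 ∧
      Cg v (T - algebraMap E K θ) (EE q d θ K z)⁻¹ (BB q d θ K (q ^ d - 1) z) := by
  have hq := two_le_q H.D
  have hd := H.D.hd1
  have hz1 : v z ≤ 1 := by rw [hz]; exact (v_g0 H).le
  obtain ⟨S, hS⟩ := ez_inv hq hd θ (q ^ d - 1)
  have h1 := congrArg (aeval z) hS
  rw [map_mul, map_add, map_one, map_mul, map_pow, aeval_X, map_sum] at h1
  have h2 : ∑ m ∈ range d, aeval z (monomial (q ^ m - 1) (Dm q θ m)⁻¹) = EE q d θ K z := by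
    unfold EE
    apply sum_congr rfl
    intro m _
    rw [aeval_monomial]
  rw [h2] at h1
  have hpol : ∀ p : E[X], v (aeval z p) ≤ 1 := by
    intro p
    rw [aeval_eq_sum_range]
    apply Valuation.map_sum_le
    intro i _
    rw [Algebra.smul_def, map_mul, map_pow]
    exact mul_le_one' (v_const_le H.vp _) (pow_le_one' hz1 _)
  have hE1 : v (EE q d θ K z) ≤ 1 := by
    unfold EE
    apply Valuation.map_sum_le
    intro i _
    rw [map_mul, map_pow]
    exact mul_le_one' (v_const_le H.vp _) (pow_le_one' hz1 _)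
  have hB1 : v (BB q d θ K (q ^ d - 1) z) ≤ 1 := hpol _
  have hc : Cg v (T - algebraMap E K θ) (EE q d θ K z * BB q d θ K (q ^ d - 1) z) 1 := by
    refine ⟨?_, by simp, ?_⟩
    · rw [map_mul]
      exact mul_le_one' hE1 hB1
    · show v (EE q d θ K z * aeval z (PowerSeries.trunc (q ^ d - 1) (ez q d θ)⁻¹) - 1) ≤ _
      rw [h1, add_sub_cancel_left, map_mul, map_pow, hz, ← v_t H]
      calc _ ≤ v (T - algebraMap E K θ) * 1 := mul_le_mul_right (hpol S) _
        _ = _ := mul_one _
  have h3 : v (EE q d θ K z * BB q d θ K (q ^ d - 1) z) = 1 := v_one_of_cg H.vt hc (by simp)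
  have hE : v (EE q d θ K z) = 1 := by
    apply le_antisymm hE1
    rw [map_mul] at h3
    rw [← h3]
    calc _ ≤ v (EE q d θ K z) * 1 := mul_le_mul_right hB1 _
      _ = _ := mul_one _
  refine ⟨hE, ?_⟩
  have hE0 : EE q d θ K z ≠ 0 := by
    intro h
    rw [h, map_zero] at hE
    exact zero_ne_one hE
  have h4 := (Cg.refl (v := v) (t := T - algebraMap E K θ) (x := (EE q d θ K z)⁻¹)
    (by rw [map_inv₀, hE, inv_one])).mul hc
  rw [← mul_assoc, inv_mul_cancel₀ hE0, one_mul, mul_one] at h4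
  exact h4.symm

theorem cg_u (H : Hy Fq E K w θ q d T g v) {a : E} (ha : a ≠ 0) :
    v (lam q d g a / (algebraMap E K a * g 0)) = 1 ∧
    Cg v (T - algebraMap E K θ) (lam q d g a / (algebraMap E K a * g 0))
      (EE q d θ K (algebraMap E K a * g 0)) := by
  have hq := two_le_q H.D
  have haK : algebraMap E K a ≠ 0 := (_root_.map_ne_zero _).2 ha
  have hva := v_const H.vp ha
  have h00 := H.g0 0
  have h1 : lam q d g a / (algebraMap E K a * g 0) =
      ∑ i ∈ range d, algebraMap E K a ^ (q ^ i - 1) * (g i / g 0) := by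
    unfold lam
    rw [sum_div]
    apply sum_congr rfl
    intro i _
    have h2 : algebraMap E K (a ^ (q ^ i)) = algebraMap E K a ^ (q ^ i - 1) * algebraMap E K a := by
      rw [map_pow, ← pow_succ]
      congr 1
      have : 1 ≤ q ^ i := Nat.one_le_pow _ _ (by omega)
      omega
    rw [h2]
    field_simp
  have h3 : Cg v (T - algebraMap E K θ) (lam q d g a / (algebraMap E K a * g 0))
      (EE q d θ K (algebraMap E K a * g 0)) := by
    rw [h1]
    unfold EE
    apply Cg.sum
    intro i hi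
    have h4 := cg_h H (mem_range.1 hi)
    have h5 := (Cg.refl (v := v) (t := T - algebraMap E K θ) (x := algebraMap E K a ^ (q ^ i - 1))
      (by rw [map_pow, hva, one_pow])).mul h4
    have h6 : algebraMap E K (Dm q θ i)⁻¹ * (algebraMap E K a * g 0) ^ (q ^ i - 1) =
        algebraMap E K a ^ (q ^ i - 1) * (algebraMap E K (Dm q θ i)⁻¹ * g 0 ^ (q ^ i - 1)) := by
      rw [mul_pow]
      ring
    rw [h6]
    exact h5
  refine ⟨v_one_of_cg H.vt h3 (cg_inv H ?_).1, h3⟩
  rw [map_mul, hva, one_mul]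

theorem cg_q (H : Hy Fq E K w θ q d T g v) {a : E} (ha : a ≠ 0) :
    Cg v (T - algebraMap E K θ) ((T - algebraMap E K θ) * (nu q d θ T g a / lam q d g a))
      (BB q d θ K (q ^ d - 1) (algebraMap E K a * g 0)) := by
  have hq := two_le_q H.D
  have hd := H.D.hd1
  have haK : algebraMap E K a ≠ 0 := (_root_.map_ne_zero _).2 ha
  have hva := v_const H.vp ha
  have h00 := H.g0 0
  have hz : v (algebraMap E K a * g 0) = v (g 0) := by rw [map_mul, hva, one_mul]
  obtain ⟨hE, hI⟩ := cg_inv H hz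
  obtain ⟨hu, hU⟩ := cg_u H ha
  refine Cg.trans ?_ hI
  set t := T - algebraMap E K θ with ht
  have h1 : t * (nu q d θ T g a / lam q d g a) =
      (t * nu q d θ T g a / (algebraMap E K a * g 0)) *
        (lam q d g a / (algebraMap E K a * g 0))⁻¹ := by
    rw [inv_div]
    field_simp
  rw [h1, ← one_mul (EE q d θ K (algebraMap E K a * g 0))⁻¹]
  refine Cg.mul ?_ (hU.inv hu hE)
  have h2 : t * nu q d θ T g a / (algebraMap E K a * g 0) =
      ∑ i ∈ range d, algebraMap E K a ^ (q ^ i - 1) * (g i / g 0) *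
        (t / (T - algebraMap E K (θ ^ (q ^ i)))) := by
    unfold nu
    rw [mul_sum, sum_div]
    apply sum_congr rfl
    intro i _
    have h2 : algebraMap E K (a ^ (q ^ i)) = algebraMap E K a ^ (q ^ i - 1) * algebraMap E K a := by
      rw [map_pow, ← pow_succ]
      congr 1
      have : 1 ≤ q ^ i := Nat.one_le_pow _ _ (by omega)
      omega
    rw [h2]
    field_simp
  have h3 : (1 : K) = ∑ i ∈ range d, if i = 0 then (1 : K) else 0 := by
    rw [sum_ite_eq' (range d) 0, if_pos (mem_range.2 (by omega))]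
  rw [h2, h3]
  apply Cg.sum
  intro i hi
  have hid := mem_range.1 hi
  by_cases hi0 : i = 0
  · rw [if_pos hi0, hi0]
    have : algebraMap E K a ^ (q ^ 0 - 1) * (g 0 / g 0) *
        (t / (T - algebraMap E K (θ ^ (q ^ 0)))) = 1 := by
      rw [pow_zero, Nat.sub_self, pow_zero, pow_one, div_self h00, ← ht, div_self H.t0]
      ring
    rw [this]
    exact Cg.refl (by simp)
  · rw [if_neg hi0]
    apply Cg.zero H.vt.le
    have h4 : v (T - algebraMap E K (θ ^ (q ^ i))) = 1 := by
      rw [Valuation.map_sub_swap]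
      exact v_th H (Nat.pos_of_ne_zero hi0) hid
    rw [map_mul, map_mul, map_pow, hva, one_pow, one_mul, map_div₀ v t, h4, div_one]
    calc _ ≤ 1 * v t := mul_le_mul_left (cg_h H hid).l _
      _ = _ := one_mul _

end main

section fin

variable {Fq E K : Type} [Field Fq] [Fintype Fq] [Field E] [Fintype E] [Algebra Fq E]
  [Field K] [Algebra E K] {w : Fq[X]} {θ : E} {q d : ℕ} {T : K} {g : ℕ → K}
  {G : Type} [LinearOrderedCommGroupWithZero G] {v : Valuation K G}

theorem BB_eq (N : ℕ) (z : K) : BB q d θ K N z =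
    ∑ j ∈ range N, algebraMap E K (PowerSeries.coeff j (ez q d θ)⁻¹) * z ^ j := by
  have h : PowerSeries.trunc N (ez q d θ)⁻¹ =
      ∑ j ∈ range N, monomial j (PowerSeries.coeff j (ez q d θ)⁻¹) := by
    ext n
    rw [PowerSeries.coeff_trunc, finsetSum_coeff]
    simp only [coeff_monomial]
    rw [sum_ite_eq' (range N) n]
    simp only [mem_range]
  unfold BB
  rw [h, map_sum]
  apply sum_congr rfl
  intro j _
  rw [aeval_monomial]

theorem dg_sum (q k d : ℕ) : ∑ i ∈ range d, q ^ i * dg q k i = k % q ^ d := by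
  induction d with
  | zero => simp [Nat.mod_one]
  | succ d ih =>
    rw [sum_range_succ, ih, Nat.mod_pow_succ]
    rfl

open Classical in
theorem sumBB (H : Hy Fq E K w θ q d T g v) {k : ℕ} (hk : 0 < k) (hk2 : k < q ^ d - 1) :
    ∑ a ∈ univ.filter (fun a : E => a ≠ 0), algebraMap E K ((a⁻¹) ^ k) *
      BB q d θ K (q ^ d - 1) (algebraMap E K a * g 0) =
    algebraMap E K (-PowerSeries.coeff k (ez q d θ)⁻¹) * g 0 ^ k := by
  simp only [BB_eq, mul_sum]
  rw [sum_comm]
  have h1 : ∀ j ∈ range (q ^ d - 1), ∑ a ∈ univ.filter (fun a : E => a ≠ 0),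
      algebraMap E K ((a⁻¹) ^ k) * (algebraMap E K (PowerSeries.coeff j (ez q d θ)⁻¹) *
        (algebraMap E K a * g 0) ^ j) =
      if j = k then algebraMap E K (-PowerSeries.coeff j (ez q d θ)⁻¹) * g 0 ^ j else 0 := by
    intro j hj
    have h2 := sum_units H.D.hd hk hk2 (mem_range.1 hj)
    have h3 : ∑ a ∈ univ.filter (fun a : E => a ≠ 0),
      algebraMap E K ((a⁻¹) ^ k) * (algebraMap E K (PowerSeries.coeff j (ez q d θ)⁻¹) *
        (algebraMap E K a * g 0) ^ j) =
        algebraMap E K (PowerSeries.coeff j (ez q d θ)⁻¹) * g 0 ^ j *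
        algebraMap E K (∑ a ∈ univ.filter (fun a : E => a ≠ 0), (a⁻¹) ^ k * a ^ j) := by
      rw [map_sum, mul_sum]
      apply sum_congr rfl
      intro a _
      rw [map_mul, map_pow, map_pow, mul_pow]
      ring
    rw [h3, h2]
    split_ifs with hjk
    · rw [map_neg, map_neg, map_one]
      ring
    · rw [map_zero, mul_zero]
  rw [sum_congr rfl h1, sum_ite_eq' (range (q ^ d - 1)) k, if_pos (mem_range.2 hk2)]

theorem prod_g (H : Hy Fq E K w θ q d T g v) {k : ℕ} :
    (T - algebraMap E K θ) * ∏ i ∈ range d, ((g i)⁻¹) ^ (q - 1 - dg q k i) =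
      -((∏ i ∈ range d, g i ^ dg q k i) *
        (∏ i ∈ Ico 1 d, (algebraMap E K (θ ^ (q ^ i)) - T))⁻¹) := by
  have hq := two_le_q H.D
  have hd := H.D.hd1
  have hdg : ∀ i, dg q k i ≤ q - 1 := by
    intro i
    have : dg q k i < q := Nat.mod_lt _ (by omega)
    omega
  have h1 : ∏ i ∈ range d, g i ^ (q - 1) =
      (∏ i ∈ Ico 1 d, (algebraMap E K (θ ^ (q ^ i)) - T)) * (algebraMap E K θ - T) := by
    have h2 : ∏ i ∈ range d, g i ^ q =
        (∏ i ∈ range d, (algebraMap E K (θ ^ (q ^ (i + 1))) - T)) * ∏ i ∈ range d, g (i + 1) := by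
      rw [← prod_mul_distrib]
      exact prod_congr rfl fun i _ => H.gr i
    have h3 : ∏ i ∈ range d, g (i + 1) = ∏ i ∈ range d, g i := by
      have h4 := prod_range_succ g d
      have h5 := prod_range_succ' g d
      rw [h4, H.gd] at h5
      exact (mul_right_cancel₀ (H.g0 0) h5).symm
    have h4 : ∏ i ∈ range d, g i ^ q = (∏ i ∈ range d, g i ^ (q - 1)) * ∏ i ∈ range d, g i := by
      rw [← prod_mul_distrib]
      apply prod_congr rfl
      intro i _
      rw [← pow_succ]
      congr 1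
      omega
    have h5 : ∏ i ∈ range d, g i ≠ 0 := prod_ne_zero_iff.2 fun i _ => H.g0 i
    rw [h3, h4] at h2
    rw [mul_right_cancel₀ h5 h2]
    obtain ⟨e, rfl⟩ : ∃ e, d = e + 1 := ⟨d - 1, by omega⟩
    rw [prod_range_succ, theta_d H.D, prod_Ico_eq_prod_range]
    congr 1
    apply prod_congr (by simp)
    intro i _
    rw [add_comm]
  have h6 : ∏ i ∈ range d, ((g i)⁻¹) ^ (q - 1 - dg q k i) =
      (∏ i ∈ range d, g i ^ dg q k i) * (∏ i ∈ range d, g i ^ (q - 1))⁻¹ := by
    rw [← prod_inv_distrib, ← prod_mul_distrib]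
    apply prod_congr rfl
    intro i _
    have h7 : g i ^ (q - 1) = g i ^ (q - 1 - dg q k i) * g i ^ dg q k i := by
      rw [← pow_add]
      congr 1
      have := hdg i
      omega
    have h8 := H.g0 i
    have h9 := pow_ne_zero (q - 1 - dg q k i) h8
    rw [h7, inv_pow]
    field_simp
  have h9 : algebraMap E K θ - T ≠ 0 := by
    intro h
    exact H.t0 (by rw [← neg_sub, h, neg_zero])
  have h10 : ∏ i ∈ Ico 1 d, (algebraMap E K (θ ^ (q ^ i)) - T) ≠ 0 := by
    rw [prod_ne_zero_iff]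
    intro i hi h
    have hi' := mem_Ico.1 hi
    have := v_th H hi'.1 hi'.2
    rw [h, map_zero] at this
    exact zero_ne_one this
  rw [h6, h1, ← neg_sub (algebraMap E K θ) T]
  field_simp

theorem main (H : Hy Fq E K w θ q d T g v) {k : ℕ} (F : E[X]) (c : E) (hk : 0 < k)
    (hk2 : k < q ^ d - 1)
    (hG : Gam q d k θ T g =
      algebraMap E K c * aeval T F * ∏ i ∈ range d, ((g i)⁻¹) ^ (q - 1 - dg q k i)) :
    PowerSeries.coeff k (ez q d θ)⁻¹ * (∏ i ∈ range d, Dm q θ i ^ dg q k i) *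
      (∏ i ∈ Ico 1 d, (θ ^ (q ^ i) - θ)) = c * F.eval θ := by
  classical
  have hq := two_le_q H.D
  have hd := H.D.hd1
  set t := T - algebraMap E K θ with ht
  -- left side
  have hL : Cg v t (t * Gam q d k θ T g)
      (algebraMap E K (-PowerSeries.coeff k (ez q d θ)⁻¹) * g 0 ^ k) := by
    rw [← sumBB H hk hk2]
    have h1 : t * Gam q d k θ T g = ∑ a ∈ univ.filter (fun a : E => a ≠ 0),
        algebraMap E K ((a⁻¹) ^ k) * (t * (nu q d θ T g a / lam q d g a)) := by
      unfold Gam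
      rw [mul_sum]
      apply sum_congr _ _
      · congr!
      · intro a _
        ring
    rw [h1]
    apply Cg.sum
    intro a ha
    exact (Cg.refl (v_const_le H.vp _)).mul (cg_q H (mem_filter.1 ha).2)
  -- right side
  have hP0 : ∏ i ∈ Ico 1 d, (θ ^ (q ^ i) - θ) ≠ 0 := by
    rw [prod_ne_zero_iff]
    intro i hi
    have hi' := mem_Ico.1 hi
    exact sub_ne_zero.2 (theta_ne H.D hi'.1 hi'.2)
  have hD0 : ∏ i ∈ range d, Dm q θ i ^ dg q k i ≠ 0 := by
    rw [prod_ne_zero_iff]
    intro i hi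
    exact pow_ne_zero _ (Dm_ne H (mem_range.1 hi))
  have hR : Cg v t (t * Gam q d k θ T g)
      (algebraMap E K (-(c * F.eval θ * ((∏ i ∈ range d, Dm q θ i ^ dg q k i)⁻¹ *
        (∏ i ∈ Ico 1 d, (θ ^ (q ^ i) - θ))⁻¹))) * g 0 ^ k) := by
    have h1 : t * Gam q d k θ T g = -(algebraMap E K c * aeval T F *
        ((∏ i ∈ range d, g i ^ dg q k i) *
        (∏ i ∈ Ico 1 d, (algebraMap E K (θ ^ (q ^ i)) - T))⁻¹)) := by
      rw [hG, mul_left_comm, prod_g H]
      ring
    have h2 : algebraMap E K (-(c * F.eval θ * ((∏ i ∈ range d, Dm q θ i ^ dg q k i)⁻¹ *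
        (∏ i ∈ Ico 1 d, (θ ^ (q ^ i) - θ))⁻¹))) * g 0 ^ k =
        -(algebraMap E K c * algebraMap E K (F.eval θ) *
        ((∏ i ∈ range d, (algebraMap E K (Dm q θ i)⁻¹ * g 0 ^ (q ^ i)) ^ dg q k i) *
        (∏ i ∈ Ico 1 d, (algebraMap E K (θ ^ (q ^ i) - θ)))⁻¹)) := by
      have h3 : ∏ i ∈ range d, (algebraMap E K (Dm q θ i)⁻¹ * g 0 ^ (q ^ i)) ^ dg q k i =
          algebraMap E K (∏ i ∈ range d, Dm q θ i ^ dg q k i)⁻¹ * g 0 ^ k := by
        have h4 : g 0 ^ k = ∏ i ∈ range d, (g 0 ^ (q ^ i)) ^ dg q k i := by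
          simp only [← pow_mul]
          rw [prod_pow_eq_pow_sum, dg_sum, Nat.mod_eq_of_lt (by omega)]
        rw [h4, ← prod_inv_distrib, map_prod, ← prod_mul_distrib]
        apply prod_congr rfl
        intro i _
        rw [mul_pow, map_inv₀, map_inv₀, map_pow, inv_pow]
      rw [h3, map_neg, map_mul, map_mul, map_mul, map_inv₀ _ (∏ i ∈ Ico 1 d, _), map_prod _ _ (Ico 1 d)]
      ring
    rw [h1, h2]
    refine Cg.neg (((Cg.refl (v_const_le H.vp _)).mul (cg_poly H.vp θ F)).mul (Cg.mul ?_ ?_))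
    · apply Cg.prod
      intro i hi
      exact (cg_g H (mem_range.1 hi)).pow _
    · apply Cg.inv
      · apply Cg.prod
        intro i hi
        exact cg_th H i
      · rw [map_prod]
        apply prod_eq_one
        intro i hi
        have hi' := mem_Ico.1 hi
        exact v_th H hi'.1 hi'.2
      · rw [← map_prod]
        exact v_const H.vp hP0
  -- comparison
  have hC := (hL.symm.trans hR).d
  rw [← sub_mul, ← map_sub, map_mul, map_pow] at hC
  by_contra hne
  have h5 : -PowerSeries.coeff k (ez q d θ)⁻¹ -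
      -(c * F.eval θ * ((∏ i ∈ range d, Dm q θ i ^ dg q k i)⁻¹ *
        (∏ i ∈ Ico 1 d, (θ ^ (q ^ i) - θ))⁻¹)) ≠ 0 := by
    intro h6
    apply hne
    have h7 : PowerSeries.coeff k (ez q d θ)⁻¹ =
        c * F.eval θ * ((∏ i ∈ range d, Dm q θ i ^ dg q k i)⁻¹ *
        (∏ i ∈ Ico 1 d, (θ ^ (q ^ i) - θ))⁻¹) := by
      linear_combination -h6
    rw [h7]
    field_simp
  rw [v_const H.vp h5, one_mul, ht, v_t H] at hC
  have hv0 : v (g 0) < 1 := v_g0 H
  have hv00 : 0 < v (g 0) := (Valuation.pos_iff v).2 (H.g0 0)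
  exact absurd hC (not_le.2 (pow_lt_pow_right_of_lt_one₀ hv00 hv0 hk2))

end fin

/-- **LOC** -/
theorem t_LOC : S_LOC := by
  intro Fq E K _ _ _ _ _ _ _ w θ q d k T g F c D hk hk2 _ hT hg hr hgd hG
  obtain ⟨V, hV1, hV2⟩ := exists_val hT θ
  have ht0 : T - algebraMap E K θ ≠ 0 := by
    intro h
    apply (transcendental_iff.1 hT) (X - C θ) (by simpa using h) |> X_sub_C_ne_zero θ
  exact main (v := V.valuation) ⟨D, hV1, hV2, ht0, hg, hr, hgd⟩ F c hk hk2 hG

end Run7.h760.GK
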